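import Pool.Agent.Helper84.KA.V

set_option autoImplicit false
set_option linter.unusedSectionVars false

/-!
Project KA (MP_0b9e0b_ag), module KA-8: reduction to vertical points, conclusion.
-/

namespace Pool.Agent.Helper84.KA

open Pool.Agent.Helper16 Pool.Agent.HC
open Pool.Agent.Helper1.KL (Var VarF Key key fld spec cyc relations rat CH coef Idx)
open Pool.Agent.Helper1.KL (aff xc yc tr ec red xpt perp Prp ratf Vert Con At0 Quo cls IT RT)
open Pool.Agent.Helper1.KL (key_eq_iff getD_map key_map mem_fld getD_mem_fld fld_eq_range fld_map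
  trdeg_fld_map restr restr_map key_restr fld_restr trdeg_fld_restr exists_hom_of_key
  trdeg_eq_of_key charP_ratFunc charP_alg cast_pow_p essFiniteType_fld)
open Pool.Agent.Helper1.KA
open Pool.Agent.Helper84.KL (hom_cast exists_kappa at0_C at0_poly)

variable {k : Type} [Field k] {p a : ℕ} [Fact p.Prime] [CharP k p] {n : ℕ} {c : Fin n → k} {r : ℕ}

section sums

variable {N : Type} [Field N] [Algebra k N] [Algebra (RatFunc k) N]
  [IsScalarTower k (RatFunc k) N]

theorem sumB_C {N : Type} [Field N] [CharP N p] {I : Finset (Fin n)} {ρ : Fin n → ZMod p}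
    (hρ : ∀ i ∉ I, ρ i = 0) (z : Fin n ⊕ Fin n → Option N) :
    ∑ i ∈ I, ((ρ i).cast : RatFunc N) * RatFunc.C (xc z i) = RatFunc.C (Bc ρ z) := by
  have hcR : CharP (RatFunc N) p := charP_ratFunc (k := N) (p := p)
  unfold Bc
  rw [map_sum]
  refine Finset.sum_subset_zero_on_sdiff (Finset.subset_univ _) (fun i hi => ?_) fun i _ => ?_
  · rw [hρ i (Finset.mem_sdiff.1 hi).2, ZMod.cast_zero, zero_mul, map_zero]
  · rw [map_mul, hom_cast]

theorem sumX_C {I : Finset (Fin n)} {ρ : Fin n → ZMod p} (hρ : ∀ i ∉ I, ρ i = 0)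
    (z : Fin n ⊕ Fin n → Option N) {κ : RatFunc k →+* RatFunc N}
    (hκC : ∀ d : k, κ (RatFunc.C d) = RatFunc.C (algebraMap k N d)) :
    ∑ i ∈ I, ((ρ i).cast : RatFunc N) * κ (RatFunc.C (c i)) * RatFunc.C (xc z i) ^ a =
      RatFunc.C (Xc a c ρ z) := by
  have hcN := charP_alg (k := k) (p := p) N
  have hcR : CharP (RatFunc N) p := charP_ratFunc (k := N) (p := p)
  unfold Xc
  rw [map_sum]
  refine Finset.sum_subset_zero_on_sdiff (Finset.subset_univ _) (fun i hi => ?_) fun i _ => ?_
  · rw [hρ i (Finset.mem_sdiff.1 hi).2, ZMod.cast_zero, zero_mul, zero_mul, map_zero]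
  · have h2 : algebraMap (RatFunc k) N (RatFunc.C (c i)) = algebraMap k N (c i) := by
      rw [IsScalarTower.algebraMap_apply k (RatFunc k) N]
      rfl
    rw [map_mul, map_mul, hom_cast, map_pow, hκC, h2]

end sums

section step

variable {N : Type} [Field N] [Algebra k N] [Algebra (RatFunc k) N]
  [IsScalarTower k (RatFunc k) N]

/-- The reduction for a point over its own field. -/
theorem step (ha : a ≠ 0) (hHom : ModHom k p a c r) {I : Finset (Fin n)}
    {z : Fin n ⊕ Fin n → Option N} {ρ : Fin n → ZMod p} (hE : Algebra.EssFiniteType (RatFunc k) N)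
    (hN : Algebra.trdeg (RatFunc k) N = r) (hz : Good p a c r I z) (hρ : ∀ i ∉ I, ρ i = 0)
    (hρ0 : ρ ≠ 0) (W : Submodule ℚ (QX p a c r)) (hG : GG p a c r I.card ≤ W)
    (hW : ∀ (R : Type) [Field R] [Algebra k R] [Algebra (RatFunc k) R]
      [IsScalarTower k (RatFunc k) R] (y : Fin n ⊕ Fin n → Option R), Good p a c r I y →
      Vert k r y → (Xc a c ρ z = 0 → Xc a c ρ y = 0) → (Bc ρ z = 0 → Bc ρ y = 0) →
      SS p a c r ρ y ∈ W) :
    SS p a c r ρ z ∈ W := by
  have hp := (Fact.out : p.Prime)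
  have hcN := charP_alg (k := k) (p := p) N
  have hcR : CharP (RatFunc N) p := charP_ratFunc (k := N) (p := p)
  by_cases hv : Vert k r z
  · exact hW N z hz hv id id
  have has := as_eq ha hz.mem ρ
  -- the general form of the homotopy
  have main : ∀ (P E : Polynomial N), 0 < P.natDegree →
      P.eval 0 = 0 → E.eval 0 = 0 →
      (E ^ p - E = P * Polynomial.C (Xc a c ρ z)) →
      (∀ (M : Type) [Field M] [Algebra (RatFunc k) M] (j : RatFunc N →+* M)
        (v : Place (RatFunc k) M), (∀ u : N, u ≠ 0 → v.val (j (RatFunc.C u)) = 1) →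
        1 < v.val (j RatFunc.X) → 1 < v.val (j (algebraMap (Polynomial N) (RatFunc N) P))) →
      (∀ (M : Type) [Field M] [Algebra (RatFunc k) M] (j : RatFunc N →+* M)
        (v : Place (RatFunc k) M), (∀ u : N, u ≠ 0 → v.val (j (RatFunc.C u)) = 1) →
        v.val (j RatFunc.X) < 1 → v.val (j (algebraMap (Polynomial N) (RatFunc N) P)) < 1 ∧
          v.val (j (algebraMap (Polynomial N) (RatFunc N) E)) < 1) →
      SS p a c r ρ z ∈ W := by
    intro P E hP hP0 hE0 hEP hpole hzero
    have hdeg : 0 < (Polynomial.C (algebraMap (RatFunc k) N RatFunc.X) + P).natDegree := by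
      rw [Polynomial.natDegree_C_add]
      exact hP
    obtain ⟨κ, hκC, hκX⟩ := exists_kappa (k := k) _ hdeg
    have hκX' : κ RatFunc.X = RatFunc.C (algebraMap (RatFunc k) N RatFunc.X) +
        algebraMap (Polynomial N) (RatFunc N) P := by
      rw [hκX, map_add, RatFunc.algebraMap_C]
    refine hHom N I z ρ κ (fun i => RatFunc.C (xc z i))
      (RatFunc.C (ec ρ z) + algebraMap (Polynomial N) (RatFunc N) E) W hE hN hz hρ
      (fun h => absurd h hρ0) hκC ?_ ?_ ?_ ?_ ?_
    · rw [hκX]
      refine at0_poly _ _ ?_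
      rw [Polynomial.eval_add, Polynomial.eval_C, hP0, add_zero]
    · intro i hi
      exact at0_C _
    · rw [← RatFunc.algebraMap_C, ← map_add]
      refine at0_poly _ _ ?_
      rw [Polynomial.eval_add, Polynomial.eval_C, hE0, add_zero]
    · rw [sumX_C hρ z hκC, sumB_C hρ z, add_pow_char, hκX', add_mul]
      have h1 : algebraMap (Polynomial N) (RatFunc N) P * RatFunc.C (Xc a c ρ z) =
          algebraMap (Polynomial N) (RatFunc N) E ^ p -
            algebraMap (Polynomial N) (RatFunc N) E := by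
        rw [← RatFunc.algebraMap_C, ← map_mul, ← hEP, map_sub, map_pow]
      have h2 : RatFunc.C (ec ρ z) ^ p - RatFunc.C (ec ρ z) =
          RatFunc.C (algebraMap (RatFunc k) N RatFunc.X) * RatFunc.C (Xc a c ρ z) +
            RatFunc.C (Bc ρ z) := by
        rw [← map_pow, ← map_sub, has, map_add, map_mul]
      rw [h1]
      linear_combination h2
    · intro M _ _ j z' v hj _ _ _ _ hI hinf hec hord hX htr
      exact core _ (algebraMap (Polynomial N) (RatFunc N) E) κ hκC hκX' hN hz hρ hv j hj z' v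
        (fun i hi => (hI i hi).1) hinf hec hord hX htr (hpole M j v) (hzero M j v) hG hW
  by_cases hX : Xc a c ρ z = 0
  · refine main Polynomial.X 0 ?_ ?_ ?_ ?_ ?_ ?_
    · rw [Polynomial.natDegree_X]
      exact Nat.one_pos
    · simp
    · simp
    · rw [hX, map_zero, mul_zero, zero_pow hp.ne_zero, sub_zero]
    · intro M _ _ j v _ h
      rw [RatFunc.algebraMap_X]
      exact h
    · intro M _ _ j v _ h
      rw [RatFunc.algebraMap_X]
      refine ⟨h, ?_⟩
      rw [map_zero, map_zero, map_zero]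
      exact zero_lt_one
  · have hc0 : (Xc a c ρ z)⁻¹ ≠ 0 := inv_ne_zero hX
    have hmap : algebraMap (Polynomial N) (RatFunc N)
        (Polynomial.C (Xc a c ρ z)⁻¹ * (Polynomial.X ^ p - Polynomial.X)) =
        RatFunc.C (Xc a c ρ z)⁻¹ * (RatFunc.X ^ p - RatFunc.X) := by
      rw [map_mul, map_sub, map_pow, RatFunc.algebraMap_C, RatFunc.algebraMap_X]
    refine main (Polynomial.C (Xc a c ρ z)⁻¹ * (Polynomial.X ^ p - Polynomial.X)) Polynomial.X
      ?_ ?_ ?_ ?_ ?_ ?_
    · rw [Polynomial.natDegree_C_mul hc0]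
      have h1 : (Polynomial.X ^ p - Polynomial.X : Polynomial N).natDegree = p := by
        rw [Polynomial.natDegree_sub_eq_left_of_natDegree_lt, Polynomial.natDegree_X_pow]
        rw [Polynomial.natDegree_X, Polynomial.natDegree_X_pow]
        exact hp.one_lt
      rw [h1]
      exact hp.pos
    · simp [hp.ne_zero]
    · simp
    · have h1 : (Polynomial.C (Xc a c ρ z)⁻¹ * Polynomial.C (Xc a c ρ z) : Polynomial N) = 1 := by
        rw [← Polynomial.C_mul, inv_mul_cancel₀ hX, Polynomial.C_1]
      linear_combination (-(Polynomial.X ^ p - Polynomial.X) : Polynomial N) * h1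
    · intro M _ _ j v h1 h2
      rw [hmap, map_mul, map_mul, h1 _ hc0, one_mul, map_sub, map_pow]
      have h3 : v.val (j RatFunc.X) < v.val (j RatFunc.X ^ p) := by
        rw [map_pow]
        exact lt_self_pow₀ h2 hp.one_lt
      rw [v.val.map_sub_eq_of_lt_left h3]
      exact h2.trans h3
    · intro M _ _ j v h1 h2
      rw [hmap, map_mul, map_mul, h1 _ hc0, one_mul, map_sub, map_pow, RatFunc.algebraMap_X]
      refine ⟨?_, h2⟩
      refine (v.val.map_sub _ _).trans_lt (max_lt ?_ h2)
      rw [map_pow]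
      exact pow_lt_one₀ zero_le h2 hp.ne_zero

end step

/-- KA-8. -/
theorem modV (ha : a ≠ 0) (hHom : ModHom k p a c r) : ModV k p a c r := by
  intro N _ _ _ _ I z ρ hz hρ hρ0
  have key1 : ∀ (W : Submodule ℚ (QX p a c r)), GG p a c r I.card ≤ W →
      (∀ (R : Type) [Field R] [Algebra k R] [Algebra (RatFunc k) R]
        [IsScalarTower k (RatFunc k) R] (y : Fin n ⊕ Fin n → Option R), Good p a c r I y →
        Vert k r y → (Xc a c ρ z = 0 → Xc a c ρ y = 0) → (Bc ρ z = 0 → Bc ρ y = 0) →
        SS p a c r ρ y ∈ W) → SS p a c r ρ z ∈ W := by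
    intro W hG hW
    have h1 := SH_restr (k := k) (p := p) (a := a) (c := c) (r := r) (perp ρ) z
    have h2 : Xc a c ρ z = ((Xc a c ρ (restr (RatFunc k) z) : fld (RatFunc k) z) : N) := by
      conv_lhs => rw [← restr_map (F := RatFunc k) z]
      exact Xc_map (fld (RatFunc k) z).val ρ _
    have h3 : Bc ρ z = ((Bc ρ (restr (RatFunc k) z) : fld (RatFunc k) z) : N) := by
      conv_lhs => rw [← restr_map (F := RatFunc k) z]
      exact Bc_map (fld (RatFunc k) z).val ρ _
    change SH p a c r (perp ρ) z ∈ W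
    rw [← h1]
    refine step (N := fld (RatFunc k) z) ha hHom (essFiniteType_fld z) hz.dim hz.restr hρ hρ0 W hG
      fun R _ _ _ _ y hy hv hXy hBy => hW R y hy hv (fun h => hXy ?_) (fun h => hBy ?_)
    · rw [h2] at h
      exact Subtype.ext h
    · rw [h3] at h
      exact Subtype.ext h
  refine ⟨key1 _ le_sup_left fun R _ _ _ _ y hy hv _ _ => ?_, fun hX hB =>
    key1 _ le_sup_left fun R _ _ _ _ y hy hv hXy hBy => ?_⟩
  · exact Submodule.mem_sup_right (Submodule.subset_span
      ⟨R, inferInstance, inferInstance, inferInstance, inferInstance, y, hy, hv, rfl⟩)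
  · exact Submodule.mem_sup_right (Submodule.subset_span
      ⟨R, inferInstance, inferInstance, inferInstance, inferInstance, y, hy,
        ⟨hv, hXy hX, hBy hB⟩, rfl⟩)

end Pool.Agent.Helper84.KA
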