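import Pool.Agent.Helper1.KA.GeneralB
import Pool.Agent.Helper84.KL.V

set_option autoImplicit false
set_option linter.unusedSectionVars false

/-!
Project KA (MP_0b9e0b_ag): the coordinates of a specialised point of the product of the curves
`y ^ p - y = t c x ^ a + x`; a specialised point is good or has fewer affine coordinates.
-/

namespace Pool.Agent.Helper84.KA

open Pool.Agent.Helper16 Pool.Agent.HC
open Pool.Agent.Helper1.KL (Var VarF Key key fld spec cyc relations rat CH coef Idx)
open Pool.Agent.Helper1.KL (aff xc yc tr ec red xpt perp Prp ratf Vert Con At0 Quo cls IT RT)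
open Pool.Agent.Helper1.KL (key_eq_iff getD_map key_map mem_fld getD_mem_fld fld_eq_range fld_map
  trdeg_fld_map restr restr_map key_restr fld_restr trdeg_fld_restr exists_hom_of_key
  trdeg_eq_of_key charP_ratFunc charP_alg cast_pow_p)
open Pool.Agent.Helper1.KA
open Pool.Agent.Helper84.KL (spec_none spec_some spec_inf of_spec_some of_spec_ne res_sum
  cast_mem_res ec_spec cast_eq_alg aff_tr fld_tr_le tr_neg_tr fld_tr)

section pts

variable {k : Type} [Field k] {p a : ℕ} {n : ℕ} {c : Fin n → k}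
variable {M : Type} [Field M] [Algebra (RatFunc k) M]

/-- A finite `y` of the specialised point: the coordinates there. -/
theorem spec_of_y (v : Place (RatFunc k) M) {z : Fin n ⊕ Fin n → Option M}
    (h : XV p a c v.resField (spec v z)) {i : Fin n} (hi : spec v z (Sum.inr i) ≠ none) :
    ∃ u w, z (Sum.inl i) = some u ∧ z (Sum.inr i) = some w ∧ u ∈ v.ring ∧ w ∈ v.ring ∧
      spec v z (Sum.inl i) = some (v.res u) ∧ spec v z (Sum.inr i) = some (v.res w) := by
  rcases h.cases i with ⟨-, h1, -⟩ | ⟨h1, h2, -⟩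
  · exact absurd h1 hi
  · obtain ⟨u, h4, h5, h6⟩ := of_spec_some v h1
    obtain ⟨w, h7, h8, h9⟩ := of_spec_some v h2
    rw [h6] at h1
    rw [h9] at h2
    exact ⟨u, w, h4, h7, h5, h8, h1, h2⟩

variable [Fact p.Prime] [CharP k p]

theorem Xc_spec (v : Place (RatFunc k) M) {z : Fin n ⊕ Fin n → Option M} (ρ : Fin n → ZMod p)
    (h : ∀ i, ρ i ≠ 0 → spec v z (Sum.inl i) ≠ none) :
    Xc a c ρ z ∈ v.ring ∧ Xc a c ρ (spec v z) = v.res (Xc a c ρ z) := by
  have h1 : ∀ i, (ρ i).cast * algebraMap (RatFunc k) M (RatFunc.C (c i)) * xc z i ^ a ∈ v.ring ∧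
      v.res ((ρ i).cast * algebraMap (RatFunc k) M (RatFunc.C (c i)) * xc z i ^ a) =
        (ρ i).cast * algebraMap (RatFunc k) v.resField (RatFunc.C (c i)) *
          xc (spec v z) i ^ a := by
    intro i
    by_cases h0 : ρ i = 0
    · rw [h0, ZMod.cast_zero, ZMod.cast_zero, zero_mul, zero_mul, zero_mul, zero_mul]
      exact ⟨zero_mem _, v.res_zero⟩
    · obtain ⟨u, h2, h3, h4⟩ := of_spec_ne v (h i h0)
      have h5 : xc z i = u := by simp [xc, h2]
      have h6 : xc (spec v z) i = v.res u := by simp only [xc, h4, Option.getD_some]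
      obtain ⟨h7, h8⟩ := cast_mem_res (M := M) v (ρ i)
      have h12 := v.ring.algebraMap_mem (RatFunc.C (c i) : RatFunc k)
      rw [h5, h6]
      refine ⟨mul_mem (mul_mem h7 h12) (pow_mem h3 a), ?_⟩
      rw [v.res_mul (mul_mem h7 h12) (pow_mem h3 a), v.res_mul h7 h12, h8, v.res_pow h3,
        v.res_algebraMap]
  obtain ⟨h2, h3⟩ := res_sum v Finset.univ _ fun i _ => (h1 i).1
  refine ⟨h2, ?_⟩
  unfold Xc
  rw [h3]
  exact Finset.sum_congr rfl fun i _ => (h1 i).2.symm

theorem Bc_spec (v : Place (RatFunc k) M) {z : Fin n ⊕ Fin n → Option M} (ρ : Fin n → ZMod p)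
    (h : ∀ i, ρ i ≠ 0 → spec v z (Sum.inl i) ≠ none) :
    Bc ρ z ∈ v.ring ∧ Bc ρ (spec v z) = v.res (Bc ρ z) := by
  have h1 : ∀ i, (ρ i).cast * xc z i ∈ v.ring ∧
      v.res ((ρ i).cast * xc z i) = (ρ i).cast * xc (spec v z) i := by
    intro i
    by_cases h0 : ρ i = 0
    · rw [h0, ZMod.cast_zero, ZMod.cast_zero, zero_mul, zero_mul]
      exact ⟨zero_mem _, v.res_zero⟩
    · obtain ⟨u, h2, h3, h4⟩ := of_spec_ne v (h i h0)
      have h5 : xc z i = u := by simp [xc, h2]
      have h6 : xc (spec v z) i = v.res u := by simp only [xc, h4, Option.getD_some]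
      obtain ⟨h7, h8⟩ := cast_mem_res (M := M) v (ρ i)
      rw [h5, h6]
      exact ⟨mul_mem h7 h3, by rw [v.res_mul h7 h3, h8]⟩
  obtain ⟨h2, h3⟩ := res_sum v Finset.univ (fun i => (ρ i).cast * xc z i) fun i _ => (h1 i).1
  refine ⟨h2, ?_⟩
  unfold Bc
  rw [h3]
  exact Finset.sum_congr rfl fun i _ => (h1 i).2.symm

end pts

section good

variable {k : Type} [Field k] {p a : ℕ} [Fact p.Prime] [CharP k p] {n : ℕ} {c : Fin n → k} {r : ℕ}
variable {N : Type} [Field N] [Algebra (RatFunc k) N]

theorem XV_tr {z : Fin n ⊕ Fin n → Option N} (hz : XV p a c N z) (h : Fin n → ZMod p) :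
    XV p a c N (tr h z) := by
  have := charP_alg (k := k) (p := p) N
  intro i
  rcases hz i with ⟨h1, h2⟩ | ⟨u, w, h1, h2, h3⟩
  · left
    refine ⟨h1, ?_⟩
    change Option.map _ (z (Sum.inr i)) = none
    rw [h2]
    rfl
  · right
    refine ⟨u, w + (h i).cast, h1, ?_, ?_⟩
    · change Option.map _ (z (Sum.inr i)) = _
      rw [h2]
      rfl
    · rw [add_pow_char, cast_pow_p, ← h3]
      ring

/-- The sums over translates of points with fewer affine coordinates. -/
theorem SH_mem_GG {z : Fin n ⊕ Fin n → Option N} (hz : XV p a c N z)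
    (hr : Algebra.trdeg (RatFunc k) (fld (RatFunc k) z) = r) {m : ℕ}
    (hm : (Pool.Agent.Helper1.KL.aff z).card < m) (H : Finset (Fin n → ZMod p)) :
    SH p a c r H z ∈ GG p a c r m := by
  unfold SH
  refine Submodule.sum_mem _ fun h _ => ?_
  refine cl_mem_GG (XV_tr hz h) ?_ ?_
  · rw [fld_tr]
    exact hr
  · rw [aff_tr]
    exact hm

variable {M : Type} [Field M] [Algebra (RatFunc k) M]

/-- A specialised point is good or has fewer affine coordinates. -/
theorem good_or_GG {I : Finset (Fin n)} (v : Place (RatFunc k) M)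
    {z : Fin n ⊕ Fin n → Option M} (hinf : ∀ i ∉ I, z (Sum.inl i) = none)
    (hX : XV p a c v.resField (spec v z))
    (hr : Algebra.trdeg (RatFunc k) (fld (RatFunc k) (spec v z)) = r) :
    Good p a c r I (spec v z) ∨ ∀ H : Finset (Fin n → ZMod p),
      SH p a c r H (spec v z) ∈ GG p a c r I.card := by
  classical
  have h0 : ∀ i ∉ I, spec v z (Sum.inr i) = none := by
    intro i hi
    have h1 := spec_none v (hinf i hi)
    rcases hX i with ⟨-, h2⟩ | ⟨u, d, h2, -, -⟩
    · exact h2
    · rw [h1] at h2; exact absurd h2 (by simp)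
  by_cases hI : ∀ i ∈ I, spec v z (Sum.inr i) ≠ none
  · left
    exact ⟨hX, hI, fun i hi => spec_none v (hinf i hi), hr⟩
  · right
    push Not at hI
    obtain ⟨i, hi, h1⟩ := hI
    intro H
    refine SH_mem_GG hX hr ?_ H
    refine Finset.card_lt_card ?_
    rw [Finset.ssubset_iff_of_subset]
    · refine ⟨i, hi, ?_⟩
      simp only [Pool.Agent.Helper1.KL.aff, Finset.mem_filter, Finset.mem_univ, true_and]
      exact fun h2 => h2 h1
    · intro l hl
      simp only [Pool.Agent.Helper1.KL.aff, Finset.mem_filter, Finset.mem_univ, true_and] at hl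
      by_contra h2
      exact hl (h0 l h2)

end good

end Pool.Agent.Helper84.KA
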