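import Pool.Agent.Helper84.KA.Sp

set_option autoImplicit false
set_option linter.unusedSectionVars false

/-!
Project KA (MP_0b9e0b_ag), module KA-8: reduction to vertical points.
-/

namespace Pool.Agent.Helper84.KA

open Pool.Agent.Helper16 Pool.Agent.HC
open Pool.Agent.Helper1.KL (Var VarF Key key fld spec cyc relations rat CH coef Idx)
open Pool.Agent.Helper1.KL (aff xc yc tr ec red xpt perp Prp ratf Vert Con At0 Quo cls IT RT)
open Pool.Agent.Helper1.KL (key_eq_iff getD_map key_map mem_fld getD_mem_fld fld_eq_range fld_map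
  trdeg_fld_map restr restr_map key_restr fld_restr trdeg_fld_restr exists_hom_of_key
  trdeg_eq_of_key charP_ratFunc charP_alg cast_pow_p)
open Pool.Agent.Helper1.KA
open Pool.Agent.Helper84.KL (spec_none spec_some spec_inf of_spec_some of_spec_ne res_sum
  cast_mem_res ec_spec cast_eq_alg aff_tr fld_tr_le tr_neg_tr fld_tr isAlgebraic_of_not_vert
  val_one_of_trivial hom_cast)

section core

variable {k : Type} [Field k] {p a : ℕ} [Fact p.Prime] [CharP k p] {n : ℕ} {c : Fin n → k} {r : ℕ}

variable {N : Type} [Field N] [Algebra k N] [Algebra (RatFunc k) N]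
  [IsScalarTower k (RatFunc k) N] {M : Type} [Field M] [Algebra (RatFunc k) M]

theorem Xc_hom (ι : N →+* M) (hιk : ∀ d : k, algebraMap (RatFunc k) M (RatFunc.C d) =
    ι (algebraMap k N d)) {I : Finset (Fin n)} {z : Fin n ⊕ Fin n → Option N}
    {z' : Fin n ⊕ Fin n → Option M} {ρ : Fin n → ZMod p} (hρ : ∀ i ∉ I, ρ i = 0)
    (hI : ∀ i ∈ I, z' (Sum.inl i) = some (ι (xc z i))) : Xc a c ρ z' = ι (Xc a c ρ z) := by
  have := charP_alg (k := k) (p := p) N
  have := charP_alg (k := k) (p := p) M
  unfold Xc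
  rw [map_sum]
  refine Finset.sum_congr rfl fun i _ => ?_
  by_cases hi : i ∈ I
  · have h1 : xc z' i = ι (xc z i) := by
      unfold xc at hI ⊢
      rw [hI i hi, Option.getD_some]
    have h2 : algebraMap (RatFunc k) N (RatFunc.C (c i)) = algebraMap k N (c i) := by
      rw [IsScalarTower.algebraMap_apply k (RatFunc k) N]
      rfl
    rw [h1, map_mul, map_mul, hom_cast, map_pow, hιk, h2]
  · rw [hρ i hi, ZMod.cast_zero, ZMod.cast_zero, zero_mul, zero_mul, zero_mul, zero_mul, map_zero]

theorem Bc_hom {N M : Type} [Field N] [Field M] [CharP N p] [CharP M p] (ι : N →+* M)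
    {I : Finset (Fin n)} {z : Fin n ⊕ Fin n → Option N}
    {z' : Fin n ⊕ Fin n → Option M} {ρ : Fin n → ZMod p} (hρ : ∀ i ∉ I, ρ i = 0)
    (hI : ∀ i ∈ I, z' (Sum.inl i) = some (ι (xc z i))) : Bc ρ z' = ι (Bc ρ z) := by
  unfold Bc
  rw [map_sum]
  refine Finset.sum_congr rfl fun i _ => ?_
  by_cases hi : i ∈ I
  · have h1 : xc z' i = ι (xc z i) := by
      unfold xc at hI ⊢
      rw [hI i hi, Option.getD_some]
    rw [h1, map_mul, hom_cast]
  · rw [hρ i hi, ZMod.cast_zero, ZMod.cast_zero, zero_mul, zero_mul, map_zero]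

/-- The places of the homotopy: away from the point itself, the specialised points are vertical or
have fewer affine coordinates. -/
theorem core {I : Finset (Fin n)} {z : Fin n ⊕ Fin n → Option N}
    {ρ : Fin n → ZMod p} {W : Submodule ℚ (QX p a c r)} (δ η : RatFunc N)
    (κ : RatFunc k →+* RatFunc N)
    (hκC : ∀ d : k, κ (RatFunc.C d) = RatFunc.C (algebraMap k N d))
    (hκX : κ RatFunc.X = RatFunc.C (algebraMap (RatFunc k) N RatFunc.X) + δ)
    (hN : Algebra.trdeg (RatFunc k) N = r) (hz : Good p a c r I z) (hρ : ∀ i ∉ I, ρ i = 0)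
    (hnv : ¬ Vert k r z) (j : RatFunc N →+* M) (hj : algebraMap (RatFunc k) M = j.comp κ)
    (z' : Fin n ⊕ Fin n → Option M) (v : Place (RatFunc k) M)
    (hI : ∀ i ∈ I, z' (Sum.inl i) = some (j (RatFunc.C (xc z i))))
    (hinf : ∀ i ∉ I, z' (Sum.inl i) = none)
    (hec : ec ρ z' = j (RatFunc.C (ec ρ z) + η))
    (hord : v.ord (j RatFunc.X) ≠ 0) (hX : XV p a c v.resField (spec v z'))
    (htr : Algebra.trdeg (RatFunc k) (fld (RatFunc k) (spec v z')) = r)
    (hpole : (∀ u : N, u ≠ 0 → v.val (j (RatFunc.C u)) = 1) → 1 < v.val (j RatFunc.X) →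
      1 < v.val (j δ))
    (hzero : (∀ u : N, u ≠ 0 → v.val (j (RatFunc.C u)) = 1) → v.val (j RatFunc.X) < 1 →
      v.val (j δ) < 1 ∧ v.val (j η) < 1)
    (hG : GG p a c r I.card ≤ W)
    (hW : ∀ (R : Type) [Field R] [Algebra k R] [Algebra (RatFunc k) R]
      [IsScalarTower k (RatFunc k) R] (y : Fin n ⊕ Fin n → Option R), Good p a c r I y →
      Vert k r y → (Xc a c ρ z = 0 → Xc a c ρ y = 0) → (Bc ρ z = 0 → Bc ρ y = 0) →
      SS p a c r ρ y ∈ W) :
    SS p a c r ρ (spec v z') ∈ W ∨ (0 < v.ord (j RatFunc.X) ∧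
        key (RatFunc k) (red ρ (spec v z')) = key (RatFunc k) (red ρ z)) := by
  have hcN := charP_alg (k := k) (p := p) N
  have hcM := charP_alg (k := k) (p := p) M
  let ι : N →+* M := j.comp RatFunc.C
  have hιk : ∀ d : k, algebraMap (RatFunc k) M (RatFunc.C d) = ι (algebraMap k N d) := by
    intro d
    rw [hj]
    change j (κ (RatFunc.C d)) = j (RatFunc.C (algebraMap k N d))
    rw [hκC]
  let _ : Algebra k M := ((algebraMap (RatFunc k) M).comp (algebraMap k (RatFunc k))).toAlgebra
  have : IsScalarTower k (RatFunc k) M := IsScalarTower.of_algebraMap_eq fun _ => rfl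
  let _ : Algebra N M := ι.toAlgebra
  have hst : IsScalarTower k N M := IsScalarTower.of_algebraMap_eq fun d => hιk d
  have hI' : ∀ i ∈ I, z' (Sum.inl i) = some (ι (xc z i)) := hI
  rcases good_or_GG v hinf hX htr with hgood | h
  swap
  · exact Or.inl (hG (h _))
  have hxi : ∀ i ∈ I, v.val (ι (xc z i)) ≤ 1 ∧
      spec v z' (Sum.inl i) = some (v.res (ι (xc z i))) := by
    intro i hi
    obtain ⟨u, w, h1, -, h3, -, h5, -⟩ := spec_of_y v hX (hgood.aff i hi)
    rw [hI' i hi] at h1
    have h6 : ι (xc z i) = u := Option.some_injective _ h1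
    rw [h6]
    exact ⟨h3, h5⟩
  have hρX : ∀ i, ρ i ≠ 0 → i ∈ I := fun i hi => by
    by_contra h0
    exact hi (hρ i h0)
  have hXc : Xc a c ρ (spec v z') = v.res (ι (Xc a c ρ z)) := by
    rw [(Xc_spec v ρ fun i hi => by rw [(hxi i (hρX i hi)).2]; simp).2, Xc_hom ι hιk hρ hI']
  have hBc : Bc ρ (spec v z') = v.res (ι (Bc ρ z)) := by
    rw [(Bc_spec v ρ fun i hi => by rw [(hxi i (hρX i hi)).2]; simp).2, Bc_hom ι hρ hI']
  have hecs : ec ρ z' ∈ v.ring ∧ ec ρ (spec v z') = v.res (ec ρ z') :=
    ec_spec v ρ fun i hi => hgood.aff i (hρX i hi)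
  have hj0 : j RatFunc.X ≠ 0 := (map_ne_zero j).2 RatFunc.X_ne_zero
  by_cases htriv : ∀ u ∈ fld k (xpt z), u ≠ 0 → v.val (ι u) = 1
  · right
    have halg := isAlgebraic_of_not_vert hN hnv
    have h1 := val_one_of_trivial ι v _ htriv
    have hδ : algebraMap (RatFunc k) M RatFunc.X =
        ι (algebraMap (RatFunc k) N RatFunc.X) + j δ := by
      rw [hj]
      change j (κ RatFunc.X) = _
      rw [hκX, map_add]
      rfl
    have hle : ∀ u : N, v.val (ι u) ≤ 1 := by
      intro u
      by_cases hu : u = 0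
      · rw [hu, map_zero, map_zero]
        exact zero_le_one
      · exact (h1 u hu).le
    have hlt : v.val (j RatFunc.X) < 1 := by
      by_contra hcon
      have h2 : 1 < v.val (j RatFunc.X) := by
        refine lt_of_le_of_ne (not_lt.1 hcon) fun h3 => hord ?_
        exact (v.ord_eq_zero_iff hj0).2 h3.symm
      have h3 := hpole h1 h2
      have h4 := v.triv RatFunc.X RatFunc.X_ne_zero
      rw [hδ, v.val.map_add_eq_of_lt_right ((hle _).trans_lt h3)] at h4
      exact absurd h4 h3.ne'
    obtain ⟨h5, h6⟩ := hzero h1 hlt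
    refine ⟨(v.ord_pos_iff hj0).2 hlt, ?_⟩
    have hf : v.val (tv k M - algebraMap N M (tv k N)) < 1 := by
      have h7 : tv k M - algebraMap N M (tv k N) = j δ := by
        change algebraMap (RatFunc k) M RatFunc.X - ι (algebraMap (RatFunc k) N RatFunc.X) = _
        rw [hδ]
        ring
      rw [h7]
      exact h5
    obtain ⟨φ, hφ⟩ := exists_resHom v h1 hf
    rw [← key_map φ (red ρ z)]
    congr 1
    funext l
    rcases l with i | i
    · change spec v z' (Sum.inl i) = Option.map φ (z (Sum.inl i))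
      by_cases hi : i ∈ I
      · rw [(hxi i hi).2, (hz.of_mem hi).1, Option.map_some, (hφ _).2]
        rfl
      · rw [(hz.inf i hi), spec_none v (hinf i hi), Option.map_none]
    · change some (ec ρ (spec v z')) = Option.map φ (some (ec ρ z))
      rw [Option.map_some, hecs.2, hec, (hφ _).2, map_add]
      congr 1
      have h8 : j (RatFunc.C (ec ρ z)) ∈ v.ring := hle _
      rw [v.res_add h8 h6.le, (v.res_eq_zero_iff (x := j η) h6.le).2 h6, add_zero]
      rfl
  · left
    push Not at htriv
    obtain ⟨u, hu, hu0, hu1⟩ := htriv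
    refine hW v.resField (spec v z') hgood ?_ (fun h => ?_) (fun h => ?_)
    · have hM : Algebra.trdeg k (fld k (xpt z)) ≤ (r : Cardinal) + 1 := by
        have h2 : Algebra.trdeg k N = (r : Cardinal) + 1 := by
          rw [trdeg_base (k := k) (N := N), hN]
        rw [← h2]
        exact trdeg_le_of_inj (fld k (xpt z)).val Subtype.val_injective
      have h3 := abh_adjoin v (M := fld k (xpt z)) hM
        ⟨⟨u, hu⟩, fun h => hu0 (congrArg Subtype.val h), hu1⟩
        (fun i : Fin n => (⟨xc z i, getD_mem_fld (xpt z) i⟩ : fld k (xpt z))) fun i => by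
          change v.val (ι (xc z i)) ≤ 1
          by_cases hi : i ∈ I
          · exact (hxi i hi).1
          · rw [(hz.of_notMem hi).2.2.1, map_zero, map_zero]
            exact zero_le_one
      have hfun : (fun j => (xpt (spec v z') j).getD 0) = fun i : Fin n =>
          v.res (algebraMap (fld k (xpt z)) M ⟨xc z i, getD_mem_fld (xpt z) i⟩) := by
        funext i
        change (spec v z' (Sum.inl i)).getD 0 = v.res (ι (xc z i))
        by_cases hi : i ∈ I
        · rw [(hxi i hi).2, Option.getD_some]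
        · rw [spec_none v (hinf i hi), (hz.of_notMem hi).2.2.1, map_zero, v.res_zero]
          rfl
      unfold Vert
      rw [fld_eq_range, hfun]
      exact h3
    · rw [hXc, h, map_zero, v.res_zero]
    · rw [hBc, h, map_zero, v.res_zero]

end core

end Pool.Agent.Helper84.KA
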